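import Mathlib
import Pool.Agent.Q158.BrC

/-! # The image of the branch set of a quasiregular map can have Nagata dimension `n - 1`

The map is the composition of the winding map `z ↦ z² / |z|` around the axis `z = 0`, where
`z = x 1 + i x 2`, with a map which rolls the slab up along an Archimedean spiral. The axis is the
branch set, and its image is coarsely dense in an orthant of a hyperplane. -/

set_option autoImplicit false

namespace Pool.Agent.Results.MP_00e59b_an.BranchImage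

open Set MeasureTheory
open scoped NNReal

/-- the Nagata dimension of `X` is at most `d`: there is `c > 0` such that for every `s > 0` the
set `X` has a cover by subsets of diameter at most `c * s` such that every subset of `X` of diameter
at most `s` meets at most `d + 1` members of the cover. -/
def NagataDimLE {n : ℕ} (X : Set (EuclideanSpace ℝ (Fin n))) (d : ℕ) : Prop :=
  ∃ c : ℝ, 0 < c ∧ ∀ s : ℝ, 0 < s → ∃ 𝒰 : Set (Set (EuclideanSpace ℝ (Fin n))), X ⊆ ⋃₀ 𝒰 ∧
    (∀ U ∈ 𝒰, U ⊆ X ∧ ∀ x ∈ U, ∀ y ∈ U, dist x y ≤ c * s) ∧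
    ∀ T ⊆ X, (∀ x ∈ T, ∀ y ∈ T, dist x y ≤ s) →
      {U : Set (EuclideanSpace ℝ (Fin n)) | U ∈ 𝒰 ∧ (U ∩ T).Nonempty}.encard ≤ d + 1

/-- the Nagata dimension: the least such `d`, and `∞` if there is none. -/
noncomputable def nagataDim {n : ℕ} (X : Set (EuclideanSpace ℝ (Fin n))) : ℕ∞ :=
  ⨅ (d : ℕ) (_ : NagataDimLE X d), (d : ℕ∞)

/-- `f` is a Lipschitz map on `Ω` which is differentiable and satisfies
`|Df(x)|^n ≤ K det Df(x)` at almost every point `x` of `Ω`. Lipschitz maps are in `W^{1,n}_loc`,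
with weak derivative the derivative, so such maps are quasiregular. -/
def LipschitzQuasiregular {n : ℕ} (f : EuclideanSpace ℝ (Fin n) → EuclideanSpace ℝ (Fin n))
    (Ω : Set (EuclideanSpace ℝ (Fin n))) : Prop :=
  (∃ L : ℝ≥0, LipschitzOnWith L f Ω) ∧ ∃ K : ℝ, 1 ≤ K ∧
    ∀ᵐ x : EuclideanSpace ℝ (Fin n) ∂volume, x ∈ Ω →
      DifferentiableAt ℝ f x ∧ ‖fderiv ℝ f x‖ ^ n ≤ K * (fderiv ℝ f x).det

/-- `f : Ω → ℝ^n` is a local homeomorphism at `x`: on an open neighbourhood of `x` inside `Ω` it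
agrees with a homeomorphism between open sets. -/
def LocalHomeoAt {n : ℕ} (f : EuclideanSpace ℝ (Fin n) → EuclideanSpace ℝ (Fin n))
    (Ω : Set (EuclideanSpace ℝ (Fin n))) (x : EuclideanSpace ℝ (Fin n)) : Prop :=
  ∃ e : OpenPartialHomeomorph (EuclideanSpace ℝ (Fin n)) (EuclideanSpace ℝ (Fin n)),
    x ∈ e.source ∧ e.source ⊆ Ω ∧ EqOn f e e.source

/-- the branch set: the points of `Ω` at which `f` is not a local homeomorphism. -/
def branchSet {n : ℕ} (f : EuclideanSpace ℝ (Fin n) → EuclideanSpace ℝ (Fin n))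
    (Ω : Set (EuclideanSpace ℝ (Fin n))) : Set (EuclideanSpace ℝ (Fin n)) :=
  {x | x ∈ Ω ∧ ¬ LocalHomeoAt f Ω x}

/-- For every `n ≥ 3` there are a domain `Ω` in `ℝ^n` and a quasiregular map `f` on `Ω` such that
the image of the branch set of `f` has Nagata dimension at least `n - 1`. -/
theorem result (n : ℕ) (hn : 3 ≤ n) :
    ∃ (Ω : Set (EuclideanSpace ℝ (Fin n)))
      (f : EuclideanSpace ℝ (Fin n) → EuclideanSpace ℝ (Fin n)),
      IsOpen Ω ∧ IsConnected Ω ∧ LipschitzQuasiregular f Ω ∧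
      ((n - 1 : ℕ) : ℕ∞) ≤ nagataDim (f '' branchSet f Ω) := by
  obtain ⟨k, rfl⟩ := Nat.exists_eq_add_of_le' hn
  have hne : (Pool.Agent.Q158.Nag.Ob k).Nonempty := by
    refine ⟨Pool.Agent.Q158.Nag.cn 2 (Pool.Agent.Q158.Nag.vec 0 0), ?_, ?_⟩
    · show (1 : ℝ) < 2
      norm_num
    · show ‖(0 : ℂ)‖ < 1 / 2
      rw [norm_zero]
      norm_num
  refine ⟨Pool.Agent.Q158.Nag.Ob k, Pool.Agent.Q158.Nag.Fw, Pool.Agent.Q158.Nag.Ob_open k,
    ⟨hne, (Pool.Agent.Q158.Nag.Ob_convex k).isPreconnected⟩, ⟨⟨15, ?_⟩, 15 ^ (k + 3), ?_,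
      Pool.Agent.Q158.Nag.ae_qr k⟩, ?_⟩
  · exact LipschitzOnWith.of_dist_le_mul fun p hp q hq => Pool.Agent.Q158.Nag.Fw_lip hp hq
  · exact one_le_pow₀ (by norm_num)
  · refine le_iInf₂ fun d hd => ?_
    by_contra hcon
    push Not at hcon
    have h1 : d < k + 3 - 1 := by exact_mod_cast hcon
    have hsub : Pool.Agent.Q158.Nag.Fw '' Pool.Agent.Q158.Nag.Ax k ⊆
        Pool.Agent.Q158.Nag.Fw '' branchSet Pool.Agent.Q158.Nag.Fw (Pool.Agent.Q158.Nag.Ob k) := by
      refine image_mono fun p hp => ⟨hp.1, ?_⟩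
      rintro ⟨e, hpe, -, heq⟩
      refine Pool.Agent.Q158.Nag.not_inj hp.2 e.open_source hpe fun x hx y hy hxy => ?_
      rw [heq hx, heq hy] at hxy
      exact e.injOn hx hy hxy
    exact Pool.Agent.Q158.Nag.axis_dim k
      ((Pool.Agent.Q158.Nag.NagataLE.subset hd hsub).mono (by omega))

end Pool.Agent.Results.MP_00e59b_an.BranchImage
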